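import Pool.Agent.H20.PT.Man

/-!
# Project PT, module CLO: a periodic point with the eigenvalue one is not hyperbolic
-/

set_option autoImplicit false
set_option linter.unusedSectionVars false

open scoped Manifold ContDiff Topology
open Filter Set Metric

universe u v w

namespace Pool.Agent.H64.PT.Clo

open Pool.Agent.H718R2.G Pool.Agent.TH80.OMS Pool.Agent.Y504.CO Pool.Agent.R773.TE
  Pool.Agent.H20.PT

/-- an eigenvector with the eigenvalue one -/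
theorem root_one {n : ℕ} (A : V n →L[ℝ] V n) (w : V n) (hw : w ≠ 0) (h : A w = w) :
    ((LinearMap.charpoly (A : V n →ₗ[ℝ] V n)).map (algebraMap ℝ ℂ)).IsRoot 1 := by
  have h2 : Module.End.HasEigenvalue (A : V n →ₗ[ℝ] V n) (1 : ℝ) :=
    Module.End.hasEigenvalue_of_hasEigenvector (x := w) ⟨by
      rw [Module.End.mem_eigenspace_iff, one_smul]
      exact h, hw⟩
  rw [Module.End.hasEigenvalue_iff_isRoot_charpoly] at h2
  have h3 := Polynomial.IsRoot.map (f := algebraMap ℝ ℂ) h2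
  rwa [map_one] at h3

theorem main : S_CLO.{u, v, w} := by
  intro d e n M _ _ _ N _ _ _ T _ _ _ r hr Θ G χ hχ y₀ ξ hξ m hm H D v hconj hD hH hv hDv hyp
  set p : T := Θ (χ.symm ξ, y₀) with hp
  have hper : G^[m] p = p := by
    have h1 := hconj.self_of_nhds
    rw [hH] at h1
    exact h1
  set ψ := chartAt (V n) p with hψdef
  have hψ : ψ ∈ IsManifold.maximalAtlas (𝓡 n) ∞ T := IsManifold.chart_mem_maximalAtlas p
  have hpψ : p ∈ ψ.source := mem_chart_source _ p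
  obtain ⟨D', hD', hμ⟩ := hyp.2 m hm hper ψ hψ hpψ
  -- the map `φ`
  let φ : V d → V n := fun z => ψ (Θ (χ.symm z, y₀))
  let θ : V n → V d := fun w => χ (Θ.symm (ψ.symm w)).1
  have hin : ContMDiffAt (𝓡 d) ((𝓡 d).prod (𝓡 e)) ∞ (fun z => ((χ.symm z, y₀) : M × N)) ξ :=
    (contMDiffAt_symm_of_mem_maximalAtlas hχ hξ).prodMk contMDiffAt_const
  have hΘin : ContMDiffAt (𝓡 d) (𝓡 n) ∞ (fun z => Θ (χ.symm z, y₀)) ξ :=
    (Θ.contMDiff.contMDiffAt).comp ξ hin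
  have hφ : ContMDiffAt (𝓡 d) (𝓡 n) ∞ φ ξ :=
    (contMDiffAt_of_mem_maximalAtlas hψ hpψ).comp ξ hΘin
  have hφξ : φ ξ = ψ p := rfl
  have hback : ψ.symm (ψ p) = p := ψ.left_inv hpψ
  have hΘs : Θ.symm p = (χ.symm ξ, y₀) := Θ.symm_apply_apply _
  have hθ : ContMDiffAt (𝓡 n) (𝓡 d) ∞ θ (ψ p) := by
    have h1 : ContMDiffAt (𝓡 n) (𝓡 n) ∞ ψ.symm (ψ p) :=
      contMDiffAt_symm_of_mem_maximalAtlas hψ (ψ.map_source hpψ)
    have h2 : ContMDiffAt (𝓡 n) ((𝓡 d).prod (𝓡 e)) ∞ (fun w => Θ.symm (ψ.symm w)) (ψ p) :=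
      (Θ.symm.contMDiff.contMDiffAt).comp (ψ p) h1
    have h3 : ContMDiffAt (𝓡 n) (𝓡 d) ∞ (fun w => (Θ.symm (ψ.symm w)).1) (ψ p) :=
      contMDiffAt_fst.comp (ψ p) h2
    refine ContMDiffAt.comp (ψ p) ?_ h3
    refine contMDiffAt_of_mem_maximalAtlas hχ ?_
    rw [hback, hΘs]
    exact χ.map_target hξ
  have hφ' : ContDiffAt ℝ ∞ φ ξ := hφ.contDiffAt
  have hθ' : ContDiffAt ℝ ∞ θ (ψ p) := hθ.contDiffAt
  have hφd : HasFDerivAt φ (fderiv ℝ φ ξ) ξ := (hφ'.differentiableAt (by simp)).hasFDerivAt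
  have hθd : HasFDerivAt θ (fderiv ℝ θ (ψ p)) (φ ξ) :=
    (hθ'.differentiableAt (by simp)).hasFDerivAt
  -- near `ξ` the point stays in the charts
  have hsrc : ∀ᶠ z in 𝓝 ξ, Θ (χ.symm z, y₀) ∈ ψ.source :=
    hΘin.continuousAt.eventually (ψ.open_source.mem_nhds hpψ)
  have htar : ∀ᶠ z in 𝓝 ξ, z ∈ χ.target := χ.open_target.mem_nhds hξ
  have hid : (fun z => θ (φ z)) =ᶠ[𝓝 ξ] fun z => z := by
    filter_upwards [hsrc, htar] with z hz hz'
    simp only [θ, φ]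
    rw [ψ.left_inv hz, Diffeomorph.symm_apply_apply]
    exact χ.right_inv hz'
  have hinj : ∀ x : V d, fderiv ℝ θ (ψ p) (fderiv ℝ φ ξ x) = x := by
    have h1 : HasFDerivAt (fun z => θ (φ z)) ((fderiv ℝ θ (ψ p)).comp (fderiv ℝ φ ξ)) ξ :=
      hθd.comp ξ hφd
    have h2 : HasFDerivAt (fun z : V d => z) ((fderiv ℝ θ (ψ p)).comp (fderiv ℝ φ ξ)) ξ :=
      h1.congr_of_eventuallyEq hid.symm
    have h3 := h2.unique (hasFDerivAt_id ξ)
    intro x
    exact congrArg (fun L : V d →L[ℝ] V d => L x) h3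
  -- the conjugation
  have hcc : (fun z => φ (H z)) =ᶠ[𝓝 ξ] fun z => ψ (G^[m] (ψ.symm (φ z))) := by
    filter_upwards [hconj, hsrc] with z hz hz'
    simp only [φ]
    rw [ψ.left_inv hz', hz]
  have hL : HasFDerivAt (fun z => φ (H z)) ((fderiv ℝ φ ξ).comp D) ξ := by
    have h1 : HasFDerivAt φ (fderiv ℝ φ ξ) (H ξ) := by
      rw [hH]
      exact hφd
    exact h1.comp ξ hD
  have hR : HasFDerivAt (fun z => ψ (G^[m] (ψ.symm (φ z)))) (D'.comp (fderiv ℝ φ ξ)) ξ := by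
    have h1 : HasFDerivAt (fun v => ψ (G^[m] (ψ.symm v))) D' (φ ξ) := hD'
    exact h1.comp ξ hφd
  have heq : (fderiv ℝ φ ξ).comp D = D'.comp (fderiv ℝ φ ξ) :=
    (hL.congr_of_eventuallyEq hcc.symm).unique hR
  have hw : D' (fderiv ℝ φ ξ v) = fderiv ℝ φ ξ v := by
    have h1 := congrArg (fun L : V d →L[ℝ] V n => L v) heq
    simp only [ContinuousLinearMap.comp_apply, hDv] at h1
    exact h1.symm
  have hw0 : fderiv ℝ φ ξ v ≠ 0 := by
    intro h0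
    have h1 := hinj v
    rw [h0, map_zero] at h1
    exact hv h1.symm
  exact hμ 1 (root_one D' _ hw0 hw) norm_one

end Pool.Agent.H64.PT.Clo
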