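import Pool.Agent.H20.PT.Hyp

/-!
# Project PT, module E1: a uniform splitting without bounded orbits is a hyperbolic structure
-/

set_option autoImplicit false
set_option linter.unusedSectionVars false

open scoped Manifold ContDiff Topology
open Filter Set Metric

universe u v w

namespace Pool.Agent.H64.PT.E1

open Pool.Agent.H718R2.G Pool.Agent.TH80.OMS Pool.Agent.Y504.CO Pool.Agent.R773.TE
  Pool.Agent.H20.PT
open Pool.Agent.H721R2 (IsTangentNorm)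

section

variable {d : ℕ} {M : Type u} [TopologicalSpace M] [ChartedSpace (V d) M]
  [IsManifold 𝓘(ℝ, V d) 1 M]

/-- the tangent map -/
noncomputable abbrev TM (f : M → M) : TangentBundle 𝓘(ℝ, V d) M → TangentBundle 𝓘(ℝ, V d) M :=
  tangentMap 𝓘(ℝ, V d) 𝓘(ℝ, V d) f

/-- bounded images in the future -/
def Bdd (f : M → M) (Nm : TangentBundle 𝓘(ℝ, V d) M → ℝ) (p : TangentBundle 𝓘(ℝ, V d) M) : Prop :=
  ∃ B : ℝ, ∀ k : ℕ, Nm (TM (f^[k]) p) ≤ B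

theorem TM_mk (f : M → M) (x : M) (v : TangentSpace 𝓘(ℝ, V d) x) :
    TM f ⟨x, v⟩ = ⟨f x, mfderiv 𝓘(ℝ, V d) 𝓘(ℝ, V d) f x v⟩ := rfl

theorem TM_succ {f : M → M} (hf : ContMDiff 𝓘(ℝ, V d) 𝓘(ℝ, V d) 1 f) (k : ℕ)
    (p : TangentBundle 𝓘(ℝ, V d) M) : TM (f^[k + 1]) p = TM (f^[k]) (TM f p) := by
  have h1 : MDifferentiable 𝓘(ℝ, V d) 𝓘(ℝ, V d) f := hf.mdifferentiable one_ne_zero
  have h2 : MDifferentiable 𝓘(ℝ, V d) 𝓘(ℝ, V d) f^[k] := (hf.iterate k).mdifferentiable one_ne_zero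
  have h3 := tangentMap_comp_at p (h2 (f p.1)) (h1 p.1)
  exact h3

theorem bdd_step {f : M → M} (hf : ContMDiff 𝓘(ℝ, V d) 𝓘(ℝ, V d) 1 f)
    {Nm : TangentBundle 𝓘(ℝ, V d) M → ℝ} (p : TangentBundle 𝓘(ℝ, V d) M) :
    Bdd f Nm (TM f p) ↔ Bdd f Nm p := by
  constructor
  · rintro ⟨B, hB⟩
    refine ⟨max B (Nm (TM (f^[0]) p)), fun k => ?_⟩
    rcases k with _ | k
    · exact le_max_right _ _
    · rw [TM_succ hf]
      exact (hB k).trans (le_max_left _ _)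
  · rintro ⟨B, hB⟩
    refine ⟨B, fun k => ?_⟩
    rw [← TM_succ hf]
    exact hB (k + 1)

theorem TM_left {f g : M → M} (hf : ContMDiff 𝓘(ℝ, V d) 𝓘(ℝ, V d) 1 f)
    (hg : ContMDiff 𝓘(ℝ, V d) 𝓘(ℝ, V d) 1 g) (h : ∀ x, g (f x) = x)
    (p : TangentBundle 𝓘(ℝ, V d) M) : TM g (TM f p) = p := by
  have h1 : MDifferentiable 𝓘(ℝ, V d) 𝓘(ℝ, V d) f := hf.mdifferentiable one_ne_zero
  have h2 : MDifferentiable 𝓘(ℝ, V d) 𝓘(ℝ, V d) g := hg.mdifferentiable one_ne_zero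
  have h3 := tangentMap_comp_at p (h2 (f p.1)) (h1 p.1)
  have h4 : g ∘ f = id := funext h
  rw [h4, tangentMap_id] at h3
  exact h3.symm

variable (f : M ≃ₜ M)

/-- the space of the vectors with bounded images -/
noncomputable def Sp {Nm : TangentBundle 𝓘(ℝ, V d) M → ℝ} (hN : IsTangentNorm Nm) (g : M → M)
    (x : M) : Submodule ℝ (TangentSpace 𝓘(ℝ, V d) x) where
  carrier := {v | Bdd g Nm ⟨x, v⟩}
  zero_mem' := by
    refine ⟨0, fun k => ?_⟩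
    rw [TM_mk, map_zero]
    have h1 := hN.smul (g^[k] x) 0 0
    rw [zero_smul, abs_zero, zero_mul] at h1
    exact h1.le
  add_mem' := by
    rintro v w ⟨B, hB⟩ ⟨B', hB'⟩
    refine ⟨B + B', fun k => ?_⟩
    rw [TM_mk, map_add]
    exact (hN.add _ _ _).trans (add_le_add (hB k) (hB' k))
  smul_mem' := by
    rintro c v ⟨B, hB⟩
    refine ⟨|c| * B, fun k => ?_⟩
    rw [TM_mk, map_smul]
    exact (hN.smul _ _ _).le.trans (mul_le_mul_of_nonneg_left (hB k) (abs_nonneg c))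

theorem mem_Sp {Nm : TangentBundle 𝓘(ℝ, V d) M → ℝ} (hN : IsTangentNorm Nm) (g : M → M)
    (x : M) (v : TangentSpace 𝓘(ℝ, V d) x) : v ∈ Sp hN g x ↔ Bdd g Nm ⟨x, v⟩ := Iff.rfl

variable {f}

theorem surj (hf : ContMDiff 𝓘(ℝ, V d) 𝓘(ℝ, V d) 1 f) (hf' : ContMDiff 𝓘(ℝ, V d) 𝓘(ℝ, V d) 1 f.symm)
    (x : M) (w : TangentSpace 𝓘(ℝ, V d) (f x)) :
    ∃ v : TangentSpace 𝓘(ℝ, V d) x, mfderiv 𝓘(ℝ, V d) 𝓘(ℝ, V d) f x v = w := by
  have h1 : TM f (TM f.symm ⟨f x, w⟩) = ⟨f x, w⟩ :=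
    TM_left hf' hf (fun y => f.apply_symm_apply y) _
  have h2 : (TM f.symm ⟨f x, w⟩).1 = x := f.symm_apply_apply x
  generalize TM f.symm ⟨f x, w⟩ = p at h1 h2
  obtain ⟨y, v⟩ := p
  simp only at h2
  subst h2
  rw [TM_mk] at h1
  exact ⟨v, by simpa using h1⟩

theorem inv_of {Nm : TangentBundle 𝓘(ℝ, V d) M → ℝ} (hN : IsTangentNorm Nm)
    (hf : ContMDiff 𝓘(ℝ, V d) 𝓘(ℝ, V d) 1 f) (hf' : ContMDiff 𝓘(ℝ, V d) 𝓘(ℝ, V d) 1 f.symm)
    (g : M → M) (h : ∀ p, Bdd g Nm (TM f p) ↔ Bdd g Nm p) (K : Set M) :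
    Q263.HS.InvOn f K (Sp hN g) := by
  intro x _
  ext w
  rw [Submodule.mem_map]
  constructor
  · rintro ⟨v, hv, rfl⟩
    exact (h ⟨x, v⟩).2 hv
  · intro hw
    obtain ⟨v, rfl⟩ := surj hf hf' x w
    exact ⟨v, (h ⟨x, v⟩).1 hw, rfl⟩

theorem closed_of {Nm : TangentBundle 𝓘(ℝ, V d) M → ℝ} (hN : IsTangentNorm Nm) {g : M → M}
    (hg : ContMDiff 𝓘(ℝ, V d) 𝓘(ℝ, V d) 1 g) {K : Set M} (hK : IsClosed K) {C a : ℝ}
    (ha : 0 < a) (ha1 : a < 1) (hr : Q263.HS.RateOn g K Nm (Sp hN g) C a) :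
    Q263.HS.ContOn K (Sp hN g) := by
  unfold Q263.HS.ContOn
  have h1 : {p : TangentBundle 𝓘(ℝ, V d) M | p.1 ∈ K ∧ p.2 ∈ Sp hN g p.1} =
      {p : TangentBundle 𝓘(ℝ, V d) M | p.1 ∈ K} ∩
        ⋂ k : ℕ, {p | Nm (TM (g^[k]) p) ≤ C * a ^ k * Nm p} := by
    ext p
    simp only [mem_ofPred_eq, mem_inter_iff, mem_iInter]
    constructor
    · rintro ⟨h1, h2⟩
      exact ⟨h1, fun k => hr k p.1 h1 p.2 h2⟩
    · rintro ⟨h1, h2⟩
      refine ⟨h1, |C| * |Nm p|, fun k => (h2 k).trans ?_⟩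
      rw [mul_assoc]
      refine (le_abs_self _).trans ?_
      rw [abs_mul, abs_mul, abs_of_pos (pow_pos ha k)]
      have h3 : a ^ k ≤ 1 := pow_le_one₀ ha.le ha1.le
      have h4 : a ^ k * |Nm p| ≤ 1 * |Nm p| := mul_le_mul_of_nonneg_right h3 (abs_nonneg _)
      rw [one_mul] at h4
      exact mul_le_mul_of_nonneg_left h4 (abs_nonneg C)
  rw [h1]
  refine (hK.preimage (FiberBundle.continuous_proj (V d) (TangentSpace 𝓘(ℝ, V d)))).inter ?_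
  refine isClosed_iInter fun k => ?_
  exact isClosed_le (hN.continuous.comp ((hg.iterate k).continuous_tangentMap le_rfl))
    (continuous_const.mul hN.continuous)

theorem bdd_of_rate {Nm : TangentBundle 𝓘(ℝ, V d) M → ℝ} {g : M → M} {C a c : ℝ}
    (ha : 0 < a) (ha1 : a < 1) {p : TangentBundle 𝓘(ℝ, V d) M}
    (h : ∀ k : ℕ, Nm (TM (g^[k]) p) ≤ C * a ^ k * c) : Bdd g Nm p := by
  refine ⟨|C| * |c|, fun k => (h k).trans ?_⟩
  rw [mul_assoc]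
  refine (le_abs_self _).trans ?_
  rw [abs_mul, abs_mul, abs_of_pos (pow_pos ha k)]
  have h3 : a ^ k ≤ 1 := pow_le_one₀ ha.le ha1.le
  have h4 : a ^ k * |c| ≤ 1 * |c| := mul_le_mul_of_nonneg_right h3 (abs_nonneg _)
  rw [one_mul] at h4
  exact mul_le_mul_of_nonneg_left h4 (abs_nonneg C)

end

theorem main : S_E1.{u} := by
  intro d M _ _ _ _ _ _ f hf hf' K hK hfK Nm hN C a ha ha1 hs hn
  have hdis : ∀ x ∈ K, ∀ v : TangentSpace 𝓘(ℝ, V d) x, v ∈ Sp hN f x → v ∈ Sp hN f.symm x →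
      v = 0 := by
    rintro x hx v ⟨B, hB⟩ ⟨B', hB'⟩
    exact hn x hx v (max B B') (fun k => (hB k).trans (le_max_left _ _))
      (fun k => (hB' k).trans (le_max_right _ _))
  have hsp : ∀ x ∈ K, ∀ v : TangentSpace 𝓘(ℝ, V d) x, ∃ s ∈ Sp hN f x, ∃ t ∈ Sp hN f.symm x,
      s + t = v ∧ (∀ k : ℕ, Nm (TM (f^[k]) ⟨x, s⟩) ≤ C * a ^ k * Nm ⟨x, v⟩) ∧
        ∀ k : ℕ, Nm (TM (f.symm^[k]) ⟨x, t⟩) ≤ C * a ^ k * Nm ⟨x, v⟩ := by
    intro x hx v
    obtain ⟨s, t, hst, h⟩ := hs x hx v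
    exact ⟨s, bdd_of_rate ha ha1 fun k => (h k).1, t, bdd_of_rate ha ha1 fun k => (h k).2, hst,
      fun k => (h k).1, fun k => (h k).2⟩
  have hrs : Q263.HS.RateOn f K Nm (Sp hN f) C a := by
    intro k x hx v hv
    obtain ⟨s, hs1, t, ht1, hst, h1, -⟩ := hsp x hx v
    have ht0 : t = 0 := by
      refine hdis x hx t ?_ ht1
      have : t = v - s := by rw [← hst]; abel
      rw [this]
      exact Submodule.sub_mem _ hv hs1
    rw [ht0, add_zero] at hst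
    rw [← hst] at h1 ⊢
    exact h1 k
  have hru : Q263.HS.RateOn f.symm K Nm (Sp hN f.symm) C a := by
    intro k x hx v hv
    obtain ⟨s, hs1, t, ht1, hst, -, h2⟩ := hsp x hx v
    have hs0 : s = 0 := by
      refine hdis x hx s hs1 ?_
      have : s = v - t := by rw [← hst]; abel
      rw [this]
      exact Submodule.sub_mem _ hv ht1
    rw [hs0, zero_add] at hst
    rw [← hst] at h2 ⊢
    exact h2 k
  refine ⟨Nm, Sp hN f, Sp hN f.symm, C, a, {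
    norm := hN
    closed := hK
    inv := hfK
    a_pos := ha
    a_lt := ha1
    map_s := inv_of hN hf hf' f (fun p => bdd_step hf p) K
    map_u := inv_of hN hf hf' f.symm (fun p => ?_) K
    rate_s := hrs
    rate_u := hru
    compl := ?_
    cont_s := closed_of hN hf hK ha ha1 hrs
    cont_u := closed_of hN hf' hK ha ha1 hru }⟩
  · have h1 := bdd_step (Nm := Nm) hf' (TM f p)
    rw [TM_left hf hf' (fun y => f.symm_apply_apply y)] at h1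
    exact h1.symm
  · intro x hx
    constructor
    · rw [Submodule.disjoint_def]
      exact fun v h1 h2 => hdis x hx v h1 h2
    · rw [codisjoint_iff_le_sup]
      intro v _
      obtain ⟨s, hs1, t, ht1, hst, -⟩ := hsp x hx v
      rw [← hst]
      exact Submodule.add_mem_sup hs1 ht1

end Pool.Agent.H64.PT.E1
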